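import Pool.Agent.Q31.GLV.Stm

/-!
# Project GLV: a commutator of the form `1 + δ` with `δ` good (job GLV-S2)
-/

set_option autoImplicit false

namespace Pool.Agent.Q214.GLV.S2

open Module Cardinal Submodule Pool.Agent.Q31.GLV

/-- a submodule which contains an independent family has at least its rank -/
lemma card_le_rank {F V ι : Type} [Field F] [AddCommGroup V] [Module F V] {u : ι → V}
    (hu : LinearIndependent F u) (W : Submodule F V) (hW : ∀ i, u i ∈ W) :
    #ι ≤ Module.rank F W := by
  have h : LinearIndependent F (fun i => (⟨u i, hW i⟩ : W)) :=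
    LinearIndependent.of_comp W.subtype hu
  exact h.cardinal_le_rank

/-- `1 + ε` for `ε ∘ ε = 0` -/
def onePlus {F V : Type} [Field F] [AddCommGroup V] [Module F V] (ε : V →ₗ[F] V)
    (h : ∀ v, ε (ε v) = 0) : V ≃ₗ[F] V where
  toFun v := v + ε v
  map_add' v w := by rw [map_add]; abel
  map_smul' c v := by rw [map_smul, RingHom.id_apply, smul_add]
  invFun v := v - ε v
  left_inv v := by simp [h]
  right_inv v := by simp [h]

theorem t_S2 : S_S2 := by
  intro F V ι _ _ _ e x h1 hι hli hx
  classical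
  obtain ⟨π, hπ⟩ := LinearMap.exists_leftInverse_of_injective
    (Finsupp.linearCombination F e) (LinearMap.ker_eq_bot.mpr hli)
  have hπe : ∀ p, π (e p) = Finsupp.single p 1 := by
    intro p
    have h3 := LinearMap.congr_fun hπ (Finsupp.single p 1)
    rw [LinearMap.comp_apply, Finsupp.linearCombination_single, one_smul, LinearMap.id_apply] at h3
    exact h3
  let w : ι × ℤ → V := fun p => if p.2 = 4 then e (p.1, 0) else 0
  let ε : V →ₗ[F] V := (Finsupp.linearCombination F w) ∘ₗ π
  have hε : ∀ p, ε (e p) = w p := by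
    intro p
    show Finsupp.linearCombination F w (π (e p)) = w p
    rw [hπe, Finsupp.linearCombination_single, one_smul]
  have hkill : ∀ A : V →ₗ[F] V, (∀ p, A (w p) = 0) → ∀ v, A (ε v) = 0 := by
    intro A hA v
    show A (Finsupp.linearCombination F w (π v)) = 0
    rw [Finsupp.linearCombination_apply, Finsupp.sum, map_sum]
    refine Finset.sum_eq_zero fun p _ => ?_
    rw [map_smul, hA, smul_zero]
  have hxs : ∀ i n, x.symm (e (i, n)) = e (i, n - 1) := by
    intro i n
    rw [LinearEquiv.symm_apply_eq, hx, sub_add_cancel]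
  have hε0 : ∀ i (n : ℤ), n ≠ 4 → ε (e (i, n)) = 0 := by
    intro i n hn
    rw [hε]; exact if_neg hn
  have hεε : ∀ v, ε (ε v) = 0 := hkill ε fun p => by
    by_cases hp : p.2 = 4
    · have : w p = e (p.1, 0) := if_pos hp
      rw [this, hε0 _ _ (by norm_num)]
    · have : w p = 0 := if_neg hp
      rw [this, map_zero]
  -- `ε x⁻¹ ε = 0` and `ε x ε = 0`
  have h2 : ∀ v, ε (x.symm (ε v)) = 0 := hkill (ε ∘ₗ (x.symm : V →ₗ[F] V)) fun p => by
    show ε (x.symm (w p)) = 0
    by_cases hp : p.2 = 4
    · have : w p = e (p.1, 0) := if_pos hp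
      rw [this, hxs, hε0 _ _ (by norm_num)]
    · have : w p = 0 := if_neg hp
      rw [this, map_zero, map_zero]
  have h3 : ∀ v, ε (x (ε v)) = 0 := hkill (ε ∘ₗ (x : V →ₗ[F] V)) fun p => by
    show ε (x (w p)) = 0
    by_cases hp : p.2 = 4
    · have : w p = e (p.1, 0) := if_pos hp
      rw [this, hx, hε0 _ _ (by norm_num)]
    · have : w p = 0 := if_neg hp
      rw [this, map_zero, map_zero]
  let δ : V →ₗ[F] V := (x : V →ₗ[F] V) ∘ₗ ε ∘ₗ (x.symm : V →ₗ[F] V) - ε
  have hδ : ∀ v, δ v = x (ε (x.symm v)) - ε v := fun v => rfl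
  have hδe : ∀ i, δ (e (i, 4)) = -e (i, 0) := by
    intro i
    have h5 : ε (e (i, 4)) = e (i, 0) := by rw [hε]; exact if_pos rfl
    rw [hδ, hxs, h5, hε0 _ _ (by norm_num), map_zero, zero_sub]
  have hδ2 : ∀ i, δ (e (i, 2)) = 0 := by
    intro i
    rw [hδ, hxs, hε0 _ _ (by norm_num), hε0 _ _ (by norm_num), map_zero, sub_zero]
  refine ⟨onePlus ε hεε, δ, ⟨?_, ?_, ?_⟩, ?_⟩
  · intro v
    rw [hδ (δ v), hδ v]
    simp only [map_sub, LinearEquiv.symm_apply_apply, hεε, h2, h3, map_zero, sub_self]
  · refine le_antisymm (Submodule.rank_le _) ?_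
    rw [← hι]
    have h5 : LinearIndependent F (fun i : ι => e (i, (0 : ℤ))) :=
      hli.comp (fun i : ι => (i, (0 : ℤ))) fun i j hij => (Prod.ext_iff.mp hij).1
    refine card_le_rank h5 _ fun i => ?_
    refine ⟨-e (i, 4), ?_⟩
    rw [map_neg, hδe, neg_neg]
  · refine ⟨span F (e '' {p | p.2 = 2}), ?_, ?_, ?_⟩
    · rw [span_le]
      rintro _ ⟨⟨i, n⟩, hn, rfl⟩
      have hn' : n = 2 := hn
      subst hn'
      exact hδ2 i
    · have h6 : LinearMap.range δ ≤ span F (e '' {p | p.2 = 0 ∨ p.2 = 1}) := by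
        rintro _ ⟨v, rfl⟩
        have hA : ∀ v, ε v ∈ span F (e '' {p : ι × ℤ | p.2 = 0}) := by
          intro v
          show Finsupp.linearCombination F w (π v) ∈ _
          rw [Finsupp.linearCombination_apply, Finsupp.sum]
          refine Submodule.sum_mem _ fun p _ => Submodule.smul_mem _ _ ?_
          by_cases hp : p.2 = 4
          · have : w p = e (p.1, 0) := if_pos hp
            rw [this]
            exact subset_span ⟨_, rfl, rfl⟩
          · have : w p = 0 := if_neg hp
            rw [this]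
            exact Submodule.zero_mem _
        have hB : span F (e '' {p : ι × ℤ | p.2 = 0}) ≤
            (span F (e '' {p : ι × ℤ | p.2 = 0 ∨ p.2 = 1})).comap (x : V →ₗ[F] V) := by
          rw [span_le]
          rintro _ ⟨⟨i, n⟩, hn, rfl⟩
          have hn' : n = 0 := hn
          subst hn'
          show x (e (i, 0)) ∈ span F (e '' {p : ι × ℤ | p.2 = 0 ∨ p.2 = 1})
          rw [hx]
          exact subset_span ⟨(i, 0 + 1), Or.inr (by norm_num), rfl⟩
        rw [hδ]
        refine Submodule.sub_mem _ (hB (hA _)) (span_mono (Set.image_mono ?_) (hA _))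
        intro p hp
        exact Or.inl hp
      refine Disjoint.mono_right h6 (hli.disjoint_span_image ?_)
      rw [Set.disjoint_left]
      rintro p hp (hp' | hp')
      · have : p.2 = 2 := hp
        omega
      · have : p.2 = 2 := hp
        omega
    · refine le_antisymm (Submodule.rank_le _) ?_
      rw [← hι]
      have h5 : LinearIndependent F (fun i : ι => e (i, (2 : ℤ))) :=
        hli.comp (fun i : ι => (i, (2 : ℤ))) fun i j hij => (Prod.ext_iff.mp hij).1
      exact card_le_rank h5 _ fun i => subset_span ⟨(i, 2), rfl, rfl⟩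
  · intro v
    show x (x.symm (v - ε v) + ε (x.symm (v - ε v))) = v + δ v
    rw [hδ, map_add, LinearEquiv.apply_symm_apply, map_sub x.symm, map_sub ε, h2, sub_zero]
    abel

end Pool.Agent.Q214.GLV.S2
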