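import Pool.Agent.Q31.GLV.Stm

/-!
# Project GLV: an element of `H` with many shifted vectors in a large range (job GLV-ST1)
-/

set_option autoImplicit false

namespace Pool.Agent.Q214.GLV

open Module Cardinal Submodule Pool.Agent.Q31.GLV

/-- a submodule which contains an independent family has at least its rank -/
lemma card_le_rank {F V ι : Type} [Field F] [AddCommGroup V] [Module F V] {u : ι → V}
    (hu : LinearIndependent F u) (W : Submodule F V) (hW : ∀ i, u i ∈ W) :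
    #ι ≤ Module.rank F W := by
  have h : LinearIndependent F (fun i => (⟨u i, hW i⟩ : W)) :=
    LinearIndependent.of_comp W.subtype hu
  exact h.cardinal_le_rank

theorem t_ST1 (hE : S_EIG) (hD : S_DEC) (hS : S_SHI) (hQ : S_SHQ) : S_ST1 := by
  intro F V _ _ _ h1 h2 H hH
  obtain ⟨ι, e₀, hι, hli, hL⟩ := hD F V h1
  have h1F : ℵ₀ ≤ #F := h1.trans h2.le
  set U₀ : Submodule F V := span F (Set.range e₀) with hU₀
  -- the shift
  let σ : ι × ℤ ≃ ι × ℤ := Equiv.prodCongr (Equiv.refl ι) (Equiv.addRight 1)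
  let b : Module.Basis (ι × ℤ) F U₀ := Module.Basis.span hli
  have hb : ∀ p, ((b p : U₀) : V) = e₀ p := fun p => congrArg Subtype.val (Module.Basis.span_apply hli p)
  obtain ⟨h, hh, hg⟩ := hH U₀ hL (b.equiv b σ)
  have hs : ∀ i n, h (e₀ (i, n)) = e₀ (i, n + 1) := by
    intro i n
    have h3 := hg (b (i, n))
    rw [hb, Module.Basis.equiv_apply, hb] at h3
    exact h3
  -- the scalar
  have hmap : U₀ ≤ U₀.comap (h : V →ₗ[F] V) := by
    rw [hU₀, span_le]
    rintro _ ⟨⟨i, n⟩, rfl⟩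
    show (h : V →ₗ[F] V) (e₀ (i, n)) ∈ span F (Set.range e₀)
    have h3 : (h : V →ₗ[F] V) (e₀ (i, n)) = e₀ (i, n + 1) := hs i n
    rw [h3]
    exact subset_span ⟨_, rfl⟩
  obtain ⟨c, hc, hc2⟩ := hE F (V ⧸ U₀) h1F ((rank_quotient_le U₀).trans_lt h2)
    (U₀.mapQ U₀ (h : V →ₗ[F] V) hmap)
  have hc3 : ∀ v, h v - c • v ∈ U₀ → v ∈ U₀ := by
    intro v hv
    have h3 := hc2 (U₀.mkQ v) (by
      rw [mkQ_apply, mapQ_apply, ← Submodule.Quotient.mk_smul, Submodule.Quotient.eq]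
      exact hv)
    rwa [mkQ_apply, Submodule.Quotient.mk_eq_zero] at h3
  have hli2 := hS F V ι e₀ h c hli hs
  have hmem : ∀ p, h (e₀ p) - c • e₀ p ∈
      LinearMap.range ((h : V →ₗ[F] V) - c • LinearMap.id) := fun p => ⟨e₀ p, rfl⟩
  refine ⟨h, hh, c, ι, fun p => h (e₀ p) - c • e₀ p, hc, hι, hli2, fun i n => ?_, hmem, ?_, ?_⟩
  · show h (h (e₀ (i, n)) - c • e₀ (i, n)) = h (e₀ (i, n + 1)) - c • e₀ (i, n + 1)
    rw [map_sub, map_smul, hs]
  · refine le_antisymm (Submodule.rank_le _) ?_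
    have h3 : LinearIndependent F (fun i : ι => h (e₀ (i, 0)) - c • e₀ (i, 0)) :=
      hli2.comp (fun i : ι => (i, (0 : ℤ))) fun i j hij => (Prod.ext_iff.mp hij).1
    rw [← hι]
    exact card_le_rank h3 _ fun i => hmem _
  · refine le_antisymm (rank_quotient_le _) ?_
    rw [← hι]
    exact hQ F V ι e₀ h c hc hli hs hc3

end Pool.Agent.Q214.GLV
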